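import Pool.Agent.Helper5.NE.Defs
import Pool.Agent.Helper44.KM.SHC

/-! # NE: part FREEZE -/

open MeasureTheory Filter Topology

namespace Pool.Agent.Helper35.NE

open Pool.Agent.Helper5.KM Pool.Agent.Helper5.NE

variable {b : ℕ}

/-- the value splits -/
lemma val_split (hb : 2 ≤ b) (m : ℕ) (y : Sq b) :
    val y - (Bk m y : ℝ) / (b : ℝ) ^ m = val (sh m y) / (b : ℝ) ^ m := by
  have hb0 : (0 : ℝ) < b := by exact_mod_cast (by omega : 0 < b)
  have h1 := pow_mul_val hb m y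
  have h2 : (b : ℝ) ^ m ≠ 0 := by positivity
  field_simp
  rw [mul_comm] at h1
  linarith

lemma p_mem (hb : 2 ≤ b) (m : ℕ) (y : Sq b) :
    (Bk m y : ℝ) / (b : ℝ) ^ m ∈ Set.Icc (0 : ℝ) 1 := by
  have hb0 : (0 : ℝ) < b := by exact_mod_cast (by omega : 0 < b)
  have h1 := pow_mul_val hb m y
  have h2 := val_nonneg (sh (m : ℤ) y)
  have h3 := val_le_one hb y
  refine ⟨by positivity, ?_⟩
  rw [div_le_one (by positivity)]
  have h4 : (b : ℝ) ^ m * val y ≤ (b : ℝ) ^ m * 1 := by gcongr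
  linarith

/-- the phase estimate -/
lemma phase_le (hb : 2 ≤ b) (f f' : ℝ → ℝ) (C : ℝ)
    (hT : ∀ s ∈ Set.Icc (0 : ℝ) 1, ∀ t ∈ Set.Icc (0 : ℝ) 1,
      |f t - f s - f' s * (t - s)| ≤ C * (t - s) ^ 2)
    (hC : 0 ≤ C) (H : ℝ) (L n : ℕ) (hn : L ≤ n) (X δ : ℝ) (y : Sq b)
    (hy : |H * f' ((Bk (n - L) y : ℝ) / (b : ℝ) ^ (n - L)) - X| ≤ δ) :
    |H * (b : ℝ) ^ n * f (val y) - (H * (b : ℝ) ^ n * f ((Bk (n - L) y : ℝ) / (b : ℝ) ^ (n - L)) +
      (b : ℝ) ^ L * X * val (sh ((n - L : ℕ) : ℤ) y))| ≤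
      (b : ℝ) ^ L * δ + |H| * C * (b : ℝ) ^ (2 * L) / (b : ℝ) ^ n := by
  obtain ⟨m, rfl⟩ := Nat.exists_eq_add_of_le hn
  rw [Nat.add_sub_cancel_left] at hy ⊢
  have hb0 : (0 : ℝ) < b := by exact_mod_cast (by omega : 0 < b)
  set p := (Bk m y : ℝ) / (b : ℝ) ^ m with hp
  set z := val (sh (m : ℤ) y) with hz
  have hz0 : 0 ≤ z := val_nonneg _
  have hz1 : z ≤ 1 := val_le_one hb _
  have h1 : val y - p = z / (b : ℝ) ^ m := val_split hb m y
  have h2 := hT p (p_mem hb m y) (val y) ⟨val_nonneg y, val_le_one hb y⟩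
  rw [h1] at h2
  set err := f (val y) - f p - f' p * (z / (b : ℝ) ^ m) with herr
  have h3 : H * (b : ℝ) ^ (L + m) * f (val y) - (H * (b : ℝ) ^ (L + m) * f p +
      (b : ℝ) ^ L * X * z) = (b : ℝ) ^ L * (H * f' p - X) * z + H * (b : ℝ) ^ (L + m) * err := by
    rw [herr, pow_add]
    field_simp
    ring
  rw [h3]
  refine (abs_add_le _ _).trans (add_le_add ?_ ?_)
  · rw [abs_mul, abs_mul, abs_of_nonneg hz0, abs_of_pos (by positivity : (0:ℝ) < (b : ℝ) ^ L)]
    calc (b : ℝ) ^ L * |H * f' p - X| * z ≤ (b : ℝ) ^ L * δ * 1 := by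
          have : 0 ≤ δ := (abs_nonneg _).trans hy
          gcongr
      _ = _ := mul_one _
  · rw [abs_mul, abs_mul, abs_of_pos (by positivity : (0:ℝ) < (b : ℝ) ^ (L + m))]
    have h4 : C * (z / (b : ℝ) ^ m) ^ 2 ≤ C * (1 / (b : ℝ) ^ m) ^ 2 := by gcongr
    calc |H| * (b : ℝ) ^ (L + m) * |err| ≤ |H| * (b : ℝ) ^ (L + m) * (C * (1 / (b : ℝ) ^ m) ^ 2) := by
          gcongr
          exact h2.trans h4
      _ = _ := by
          rw [pow_add, two_mul, pow_add]
          field_simp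

theorem freeze (hb : 2 ≤ b) {μ : Measure (Sq b)} [IsProbabilityMeasure μ]
    (h : MeasurePreserving (sh 1) μ μ) (f f' : ℝ → ℝ) (hf : Continuous f) (hf' : Continuous f')
    (C : ℝ) (hC : 0 ≤ C)
    (hT : ∀ s ∈ Set.Icc (0 : ℝ) 1, ∀ t ∈ Set.Icc (0 : ℝ) 1,
      |f t - f s - f' s * (t - s)| ≤ C * (t - s) ^ 2)
    (H : ℝ) (r : ℕ) (G : (Fin r → Fin b) → ℂ) (hG : ∀ w, ‖G w‖ ≤ 1) (L n : ℕ) (hn : L ≤ n)
    (X δ : ℝ) (hδ : 0 ≤ δ) :
    ∀ᵐ y ∂μ, |H * f' ((Bk (n - L) y : ℝ) / (b : ℝ) ^ (n - L)) - X| ≤ δ →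
      ‖(μ[fun y => e (H * (b : ℝ) ^ n * f (val y)) * G (blk n r y) |
          past b ((n : ℤ) - L)]) y‖ ≤
        ‖(μ[fun y => e ((b : ℝ) ^ L * X * val y) * G (blk L r y) | past b 0])
          (sh ((n : ℤ) - L) y)‖ + 2 * Real.pi * (b : ℝ) ^ L * δ +
          2 * Real.pi * |H| * C * (b : ℝ) ^ (2 * L) / (b : ℝ) ^ n := by
  have hmz : (n : ℤ) - L = ((n - L : ℕ) : ℤ) := by omega
  rw [hmz]
  set m := n - L with hm
  set p : Sq b → ℝ := fun y => (Bk m y : ℝ) / (b : ℝ) ^ m with hp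
  set W : Sq b → ℂ := fun y => e (H * (b : ℝ) ^ n * f (val y)) * G (blk n r y) with hW
  set Φ : Sq b → ℂ := fun y => e ((b : ℝ) ^ L * X * val y) * G (blk L r y) with hΦ
  set K : ℝ := 2 * Real.pi * ((b : ℝ) ^ L * δ + |H| * C * (b : ℝ) ^ (2 * L) / (b : ℝ) ^ n) with hK
  have hK0 : 0 ≤ K := by positivity
  -- measurability
  have hGm : ∀ s : ℤ, Measurable (fun y : Sq b => G (blk s r y)) := fun s =>
    (measurable_of_finite G).comp (measurable_blk _ _)
  have hWm : Measurable W :=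
    (measurable_e.comp ((hf.measurable.comp measurable_val).const_mul _)).mul (hGm n)
  have hΦm : Measurable Φ :=
    (measurable_e.comp (measurable_val.const_mul _)).mul (hGm L)
  have hW1 : ∀ y, ‖W y‖ ≤ 1 := fun y => by
    rw [hW]; simp only; rw [norm_mul, norm_e, one_mul]; exact hG _
  have hΦ1 : ∀ y, ‖Φ y‖ ≤ 1 := fun y => by
    rw [hΦ]; simp only; rw [norm_mul, norm_e, one_mul]; exact hG _
  have hWi : Integrable W μ := Integrable.of_bound hWm.aestronglyMeasurable 1 (ae_of_all _ hW1)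
  have hΦi : Integrable Φ μ := Integrable.of_bound hΦm.aestronglyMeasurable 1 (ae_of_all _ hΦ1)
  have hΦs : Integrable (fun y => Φ (sh m y)) μ :=
    Integrable.of_bound (hΦm.comp (measurable_sh m)).aestronglyMeasurable 1
      (ae_of_all _ fun y => hΦ1 _)
  have hpm : Measurable[past b m] p := (measurable_Bk m).div_const _
  -- the set
  set A : Set (Sq b) := {y | |H * f' (p y) - X| ≤ δ} with hA
  have hAm : MeasurableSet[past b m] A := by
    have h1 : Measurable[past b m] (fun y => |H * f' (p y) - X|) := by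
      have h2 : Measurable (fun t : ℝ => |H * f' t - X|) := by
        have : Continuous (fun t : ℝ => |H * f' t - X|) := by fun_prop
        exact this.measurable
      exact h2.comp hpm
    exact h1 (measurableSet_Iic (a := δ))
  set ind : Sq b → ℂ := A.indicator (fun _ => (1 : ℂ)) with hind
  have hindm : StronglyMeasurable[past b m] ind :=
    (@stronglyMeasurable_const _ _ (past b m) _ (1:ℂ)).indicator hAm
  set c : Sq b → ℂ := fun y => ind y * e (H * (b : ℝ) ^ n * f (p y)) with hc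
  have hcm : StronglyMeasurable[past b m] c := by
    apply hindm.mul
    have h2 : Measurable (fun t : ℝ => e (H * (b : ℝ) ^ n * f t)) :=
      measurable_e.comp (hf.measurable.const_mul _)
    exact (h2.comp hpm).stronglyMeasurable
  have hind1 : ∀ y, ‖ind y‖ ≤ 1 := by
    intro y
    rw [hind]
    by_cases hy : y ∈ A
    · rw [Set.indicator_of_mem hy]; simp
    · rw [Set.indicator_of_notMem hy]; simp
  have hc1 : ∀ y, ‖c y‖ ≤ 1 := fun y => by
    rw [hc]; simp only; rw [norm_mul, norm_e, mul_one]; exact hind1 y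
  -- the remainder
  set R : Sq b → ℂ := fun y => ind y * W y - c y * Φ (sh m y) with hR
  have hindmm : AEStronglyMeasurable ind μ := (hindm.mono (past_le _)).aestronglyMeasurable
  have hcmm : AEStronglyMeasurable c μ := (hcm.mono (past_le _)).aestronglyMeasurable
  have i1 : Integrable (fun y => ind y * W y) μ := hWi.bdd_mul hindmm (ae_of_all _ hind1)
  have i2 : Integrable (fun y => c y * Φ (sh m y)) μ := hΦs.bdd_mul hcmm (ae_of_all _ hc1)
  have i3 : Integrable R μ := i1.sub i2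
  have hRK : ∀ y, ‖R y‖ ≤ K := by
    intro y
    by_cases hy : y ∈ A
    · have h1 : ind y = 1 := Set.indicator_of_mem hy _
      have h2 : R y = (e (H * (b : ℝ) ^ n * f (val y)) - e (H * (b : ℝ) ^ n * f (p y) +
          (b : ℝ) ^ L * X * val (sh (m : ℤ) y))) * G (blk n r y) := by
        rw [hR, hc, hΦ, hW]
        simp only
        rw [h1, blk_sh, e_add]
        have : (L : ℤ) + (m : ℤ) = (n : ℤ) := by omega
        rw [this]
        ring
      rw [h2, norm_mul]
      calc _ ≤ (2 * Real.pi * |H * (b : ℝ) ^ n * f (val y) - (H * (b : ℝ) ^ n * f (p y) +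
          (b : ℝ) ^ L * X * val (sh (m : ℤ) y))|) * 1 :=
            mul_le_mul (norm_e_sub_le _ _) (hG _) (norm_nonneg _) (by positivity)
        _ ≤ K := by
            rw [mul_one, hK]
            gcongr
            exact phase_le hb f f' C hT hC H L n hn X δ y hy
    · have h1 : ind y = 0 := Set.indicator_of_notMem hy _
      rw [hR, hc]
      simp only
      rw [h1]
      simpa using hK0
  -- conditional expectations
  have e1 : μ[fun y => ind y * W y | past b m] =ᵐ[μ] fun y => ind y * (μ[W | past b m]) y :=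
    condExp_bilin_of_stronglyMeasurable_left (ContinuousLinearMap.mul ℝ ℂ) hindm i1 hWi
  have e2 : μ[fun y => c y * Φ (sh m y) | past b m] =ᵐ[μ]
      fun y => c y * (μ[fun y => Φ (sh m y) | past b m]) y :=
    condExp_bilin_of_stronglyMeasurable_left (ContinuousLinearMap.mul ℝ ℂ) hcm i2 hΦs
  have e3 : μ[fun y => Φ (sh m y) | past b m] =ᵐ[μ] fun y => (μ[Φ | past b 0]) (sh m y) := by
    have := Pool.Agent.Helper44.KM.condExp_sh h Φ hΦi 0 m
    rwa [zero_add] at this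
  have e4 : μ[fun y => ind y * W y | past b m] =ᵐ[μ]
      μ[fun y => c y * Φ (sh m y) | past b m] + μ[R | past b m] := by
    have h1 : (fun y => ind y * W y) = (fun y => c y * Φ (sh m y)) + R := by
      funext y
      simp only [hR, Pi.add_apply]
      ring
    rw [h1]
    exact condExp_add i2 i3 _
  have e5 : ∀ᵐ y ∂μ, ‖(μ[R | past b m]) y‖ ≤ K :=
    ae_bdd_norm_condExp_of_ae_bdd_norm (ae_of_all _ hRK)
  filter_upwards [e1, e2, e3, e4, e5] with y h1 h2 h3 h4 h5 hy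
  have hyA : y ∈ A := hy
  have hi : ind y = 1 := Set.indicator_of_mem hyA _
  rw [Pi.add_apply, h1, h2, h3, hi, one_mul] at h4
  rw [h4]
  calc ‖c y * (μ[Φ | past b 0]) (sh m y) + (μ[R | past b m]) y‖
      ≤ ‖c y * (μ[Φ | past b 0]) (sh m y)‖ + ‖(μ[R | past b m]) y‖ := norm_add_le _ _
    _ ≤ 1 * ‖(μ[Φ | past b 0]) (sh m y)‖ + K := by
        rw [norm_mul]
        gcongr
        exact hc1 y
    _ = _ := by rw [hK]; ring

end Pool.Agent.Helper35.NE
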