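import Pool.Agent.Helper5.NE.Defs
import Pool.Agent.Helper46.KM.LLN

/-! # NE: part LLN2 -/

open MeasureTheory Filter Topology

namespace Pool.Agent.Helper35.NE

open Pool.Agent.Helper5.KM Pool.Agent.Helper5.NE

/-- second moment -/
lemma second_moment_abs {Ω : Type*} [MeasurableSpace Ω] {μ : Measure Ω} [IsProbabilityMeasure μ]
    (D : ℕ → Ω → ℂ) (hD : ∀ n, Measurable (D n)) (hbd : ∀ᵐ y ∂μ, ∀ n, ‖D n y‖ ≤ 2) (C ρ : ℝ)
    (hC : 0 ≤ C) (hρ0 : 0 ≤ ρ) (hρ : ρ < 1)
    (hcorr : ∀ m L : ℕ, ‖∫ y, D m y * (starRingEnd ℂ) (D (m + L) y) ∂μ‖ ≤ 2 * C * ρ ^ L) :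
    ∃ K : ℝ, 0 ≤ K ∧ ∀ N : ℕ,
    Integrable (fun y => ‖∑ n ∈ Finset.range N, D n y‖ ^ 2) μ ∧
    ∫ y, ‖∑ n ∈ Finset.range N, D n y‖ ^ 2 ∂μ ≤ K * N := by
  -- pair bound
  have hpair : ∀ m n : ℕ, ‖∫ y, D m y * (starRingEnd ℂ) (D n y) ∂μ‖ ≤
      2 * C * ρ ^ (n - m) * 1 ∨ n < m := by
    intro m n
    rcases Nat.lt_or_ge n m with hlt | hge
    · right; exact hlt
    · left
      obtain ⟨L, rfl⟩ := Nat.exists_eq_add_of_le hge
      have := hcorr m L
      rw [Nat.add_sub_cancel_left, mul_one]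
      exact this
  have hint : ∀ m n : ℕ, Integrable (fun y => D m y * (starRingEnd ℂ) (D n y)) μ :=
    fun m n => Integrable.of_bound ((hD m).mul
      (Complex.continuous_conj.measurable.comp (hD n))).aestronglyMeasurable (2 * 2) (by
      filter_upwards [hbd] with y hy
      rw [norm_mul, RCLike.norm_conj]
      exact mul_le_mul (hy m) (hy n) (norm_nonneg _) (by norm_num))
  have hsum : ∀ N : ℕ, Measurable fun y => ∑ n ∈ Finset.range N, D n y := fun N =>
    Finset.measurable_sum _ fun n _ => hD n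
  have hpos : 0 < 1 - ρ := by linarith
  refine ⟨4 * C / (1 - ρ), by positivity, fun N => ⟨?_, ?_⟩⟩
  · refine Integrable.of_bound ((hsum N).norm.pow_const 2).aestronglyMeasurable ((N * 2 : ℝ) ^ 2) ?_
    filter_upwards [hbd] with y hy
    rw [Real.norm_eq_abs, abs_of_nonneg (by positivity)]
    apply pow_le_pow_left₀ (norm_nonneg _)
    refine (norm_sum_le _ _).trans ((Finset.sum_le_sum fun n _ => hy n).trans ?_)
    simp
  · have e1 : ((∫ y, ‖∑ n ∈ Finset.range N, D n y‖ ^ 2 ∂μ : ℝ) : ℂ) =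
        ∑ m ∈ Finset.range N, ∑ n ∈ Finset.range N,
          ∫ y, D m y * (starRingEnd ℂ) (D n y) ∂μ := by
      rw [← integral_complex_ofReal]
      have e2 : ∀ y, (((‖∑ n ∈ Finset.range N, D n y‖ ^ 2 : ℝ)) : ℂ) =
          ∑ m ∈ Finset.range N, ∑ n ∈ Finset.range N,
            D m y * (starRingEnd ℂ) (D n y) := by
        intro y
        rw [← Finset.sum_mul_sum, ← map_sum, Complex.mul_conj, Complex.normSq_eq_norm_sq]
      calc ∫ y, (((‖∑ n ∈ Finset.range N, D n y‖ ^ 2 : ℝ)) : ℂ) ∂μ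
          = ∫ y, ∑ m ∈ Finset.range N, ∑ n ∈ Finset.range N,
            D m y * (starRingEnd ℂ) (D n y) ∂μ := by
            congr 1; funext y; exact e2 y
        _ = _ := by
            rw [integral_finsetSum _ fun m _ => integrable_finsetSum _ fun n _ => hint m n]
            refine Finset.sum_congr rfl fun m _ => ?_
            rw [integral_finsetSum _ fun n _ => hint m n]
    have e3 : ∫ y, ‖∑ n ∈ Finset.range N, D n y‖ ^ 2 ∂μ =
        ‖((∫ y, ‖∑ n ∈ Finset.range N, D n y‖ ^ 2 ∂μ : ℝ) : ℂ)‖ := by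
      rw [Complex.norm_real, Real.norm_eq_abs, abs_of_nonneg (integral_nonneg fun y => by positivity)]
    rw [e3, e1]
    have hp2 : ∀ m n : ℕ, ‖∫ y, D m y * (starRingEnd ℂ) (D n y) ∂μ‖ ≤
        2 * C * ρ ^ (n - m) * (if m ≤ n then 1 else 0) +
          2 * C * ρ ^ (m - n) * (if n ≤ m then 1 else 0) := by
      intro m n
      rcases Nat.lt_or_ge n m with hlt | hge
      · have h1 := (hpair n m).resolve_right (by omega)
        have h2 : ‖∫ y, D m y * (starRingEnd ℂ) (D n y) ∂μ‖ =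
            ‖∫ y, D n y * (starRingEnd ℂ) (D m y) ∂μ‖ := by
          rw [← RCLike.norm_conj (∫ y, D n y * (starRingEnd ℂ) (D m y) ∂μ),
            ← integral_conj]
          congr 2
          funext y
          simp only [map_mul, Complex.conj_conj]
          ring
        rw [h2, if_neg (by omega), if_pos hlt.le]
        linarith
      · have h1 := (hpair m n).resolve_right (by omega)
        rw [if_pos hge]
        have h3 : 0 ≤ 2 * C * ρ ^ (m - n) * (if n ≤ m then (1 : ℝ) else 0) := by positivity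
        linarith
    have hgeom : ∀ (m : ℕ), ∑ n ∈ Finset.range N, 2 * C * ρ ^ (n - m) * (if m ≤ n then (1 : ℝ) else 0) ≤
        2 * C / (1 - ρ) := by
      intro m
      have h1 : ∑ n ∈ Finset.range N, 2 * C * ρ ^ (n - m) * (if m ≤ n then (1 : ℝ) else 0) =
          2 * C * ∑ n ∈ (Finset.range N).filter (fun n => m ≤ n), ρ ^ (n - m) := by
        rw [Finset.sum_filter, Finset.mul_sum]
        refine Finset.sum_congr rfl fun n _ => ?_
        split_ifs <;> ring
      have h2 : ∑ n ∈ (Finset.range N).filter (fun n => m ≤ n), ρ ^ (n - m) ≤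
          ∑ k ∈ Finset.range N, ρ ^ k := by
        have h3 : ∑ n ∈ (Finset.range N).filter (fun n => m ≤ n), ρ ^ (n - m) =
            ∑ k ∈ ((Finset.range N).filter (fun n => m ≤ n)).image (fun n => n - m), ρ ^ k := by
          rw [Finset.sum_image]
          intro x hx y hy hxy
          simp only [Finset.coe_filter, Set.mem_ofPred_eq] at hx hy
          simp only at hxy
          omega
        rw [h3]
        apply Finset.sum_le_sum_of_subset_of_nonneg
        · intro k hk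
          obtain ⟨n, hn, rfl⟩ := Finset.mem_image.1 hk
          have := Finset.mem_range.1 (Finset.mem_filter.1 hn).1
          exact Finset.mem_range.2 (by omega)
        · intro k _ _
          positivity
      have h4 : ∑ k ∈ Finset.range N, ρ ^ k ≤ 1 / (1 - ρ) := by
        rw [one_div, ← tsum_geometric_of_lt_one hρ0 hρ]
        exact (summable_geometric_of_lt_one hρ0 hρ).sum_le_tsum _ (fun k _ => by positivity)
      rw [h1]
      calc 2 * C * ∑ n ∈ (Finset.range N).filter (fun n => m ≤ n), ρ ^ (n - m)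
          ≤ 2 * C * (1 / (1 - ρ)) := mul_le_mul_of_nonneg_left (h2.trans h4) (by positivity)
        _ = _ := by ring
    refine (norm_sum_le _ _).trans ?_
    refine (Finset.sum_le_sum fun m _ => (norm_sum_le _ _).trans
      (Finset.sum_le_sum fun n _ => hp2 m n)).trans ?_
    simp_rw [Finset.sum_add_distrib]
    have h5 : ∑ m ∈ Finset.range N, ∑ n ∈ Finset.range N,
        2 * C * ρ ^ (n - m) * (if m ≤ n then (1 : ℝ) else 0) ≤ N * (2 * C / (1 - ρ)) := by
      refine (Finset.sum_le_sum fun m _ => hgeom m).trans (le_of_eq ?_)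
      simp
    have h6 : ∑ m ∈ Finset.range N, ∑ n ∈ Finset.range N,
        2 * C * ρ ^ (m - n) * (if n ≤ m then (1 : ℝ) else 0) ≤ N * (2 * C / (1 - ρ)) := by
      rw [Finset.sum_comm]
      exact h5
    calc _ ≤ N * (2 * C / (1 - ρ)) + N * (2 * C / (1 - ρ)) := add_le_add h5 h6
      _ = _ := by ring

/-- abstract law of large numbers -/
theorem lln_abs {Ω : Type*} [MeasurableSpace Ω] {μ : Measure Ω} [IsProbabilityMeasure μ]
    (D : ℕ → Ω → ℂ) (hD : ∀ n, Measurable (D n)) (hbd : ∀ᵐ y ∂μ, ∀ n, ‖D n y‖ ≤ 2) (C ρ : ℝ)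
    (hC : 0 ≤ C) (hρ0 : 0 ≤ ρ) (hρ : ρ < 1)
    (hcorr : ∀ m L : ℕ, ‖∫ y, D m y * (starRingEnd ℂ) (D (m + L) y) ∂μ‖ ≤ 2 * C * ρ ^ L) :
    ∀ᵐ y ∂μ, Tendsto (fun N : ℕ => (∑ n ∈ Finset.range N, D n y) / N) atTop (𝓝 0) := by
  obtain ⟨K, hK, hKN⟩ := second_moment_abs D hD hbd C ρ hC hρ0 hρ hcorr
  set g : ℕ → Ω → ℝ := fun k y =>
    ‖∑ n ∈ Finset.range (k ^ 2), D n y‖ ^ 2 / (k : ℝ) ^ 4 with hg
  have hgm : ∀ k, Measurable (g k) := fun k =>
    (((Finset.measurable_sum _ fun n _ => hD n).norm.pow_const 2).div_const _)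
  have hg0 : ∀ k y, 0 ≤ g k y := fun k y => by positivity
  have hgi : ∀ k, Integrable (g k) μ := fun k => (hKN (k ^ 2)).1.div_const _
  have hgint : ∀ k : ℕ, ∫ y, g k y ∂μ ≤ K * (1 / (k : ℝ) ^ 2) := by
    intro k
    simp only [hg]
    rw [integral_div]
    rcases Nat.eq_zero_or_pos k with rfl | hk
    · simp
    · have hk0 : (0 : ℝ) < k := by exact_mod_cast hk
      have h1 := (hKN (k ^ 2)).2
      rw [div_le_iff₀ (by positivity)]
      refine h1.trans (le_of_eq ?_)
      push_cast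
      field_simp
  have hsumm : Summable fun k : ℕ => K * (1 / (k : ℝ) ^ 2) :=
    (Real.summable_one_div_nat_pow.2 (by norm_num)).mul_left K
  have hfin : ∫⁻ y, ∑' k, ENNReal.ofReal (g k y) ∂μ ≠ ⊤ := by
    rw [lintegral_tsum fun k => (hgm k).ennreal_ofReal.aemeasurable]
    have h1 : ∀ k, ∫⁻ y, ENNReal.ofReal (g k y) ∂μ ≤ ENNReal.ofReal (K * (1 / (k : ℝ) ^ 2)) := by
      intro k
      rw [← ofReal_integral_eq_lintegral_ofReal (hgi k) (Eventually.of_forall (hg0 k))]
      exact ENNReal.ofReal_le_ofReal (hgint k)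
    refine ne_top_of_le_ne_top ?_ (ENNReal.tsum_le_tsum h1)
    rw [← ENNReal.ofReal_tsum_of_nonneg (fun k => by positivity) hsumm]
    exact ENNReal.ofReal_ne_top
  have hae : ∀ᵐ y ∂μ, ∑' k, ENNReal.ofReal (g k y) < ⊤ :=
    ae_lt_top (Measurable.tsum fun k => (hgm k).ennreal_ofReal) hfin
  filter_upwards [hae, hbd] with y hy hy2
  have h1 : Tendsto (fun k => ENNReal.ofReal (g k y)) atTop (𝓝 0) := by
    have := ENNReal.tendsto_cofinite_zero_of_tsum_ne_top hy.ne
    rwa [Nat.cofinite_eq_atTop] at this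
  have h2 : Tendsto (fun k => g k y) atTop (𝓝 0) := by
    have h3 := (ENNReal.tendsto_toReal ENNReal.zero_ne_top).comp h1
    simp only [ENNReal.toReal_zero] at h3
    refine h3.congr fun k => ?_
    simp only [Function.comp]
    exact ENNReal.toReal_ofReal (hg0 k y)
  have h3 : Tendsto (fun k : ℕ => ‖∑ n ∈ Finset.range (k ^ 2), D n y‖ / (k : ℝ) ^ 2) atTop
      (𝓝 0) := by
    have h4 := (Real.continuous_sqrt.tendsto 0).comp h2
    rw [Real.sqrt_zero] at h4
    refine h4.congr fun k => ?_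
    simp only [Function.comp, hg]
    have e : ‖∑ n ∈ Finset.range (k ^ 2), D n y‖ ^ 2 / (k : ℝ) ^ 4 =
        (‖∑ n ∈ Finset.range (k ^ 2), D n y‖ / (k : ℝ) ^ 2) ^ 2 := by
      rw [div_pow, ← pow_mul]
    rw [e, Real.sqrt_sq (by positivity)]
  exact Pool.Agent.Helper46.KM.avg_tendsto (fun n => D n y) 2 (fun n => hy2 n) h3

variable {b : ℕ}

theorem lln2 {μ : Measure (Sq b)} [IsProbabilityMeasure μ] (W : ℕ → Sq b → ℂ)
    (hW : ∀ n, Measurable (W n)) (hW1 : ∀ n y, ‖W n y‖ ≤ 1) (C ρ : ℝ) (hρ0 : 0 ≤ ρ) (hρ : ρ < 1)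
    (happ : ∀ n k : ℕ, ∃ Ψ : Sq b → ℂ, StronglyMeasurable[past b ((n + k : ℕ) : ℤ)] Ψ ∧
      (∀ y, ‖Ψ y‖ ≤ 1) ∧ ∀ y, ‖W n y - Ψ y‖ ≤ C * ρ ^ k)
    (L : ℕ) (a : ℕ → ℂ) (ha : ∀ n, ‖a n‖ ≤ 1) :
    ∀ᵐ y ∂μ, Tendsto (fun N : ℕ => (∑ n ∈ Finset.range N,
      a n * (W n y - (μ[W n | past b ((n : ℤ) - L)]) y)) / N) atTop (𝓝 0) := by
  have hC : 0 ≤ C := by
    obtain ⟨Ψ, _, _, hΨ⟩ := happ 0 0
    obtain ⟨y⟩ : Nonempty (Sq b) := by
      by_contra hne
      rw [not_nonempty_iff] at hne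
      have h1 : μ Set.univ = 1 := measure_univ
      rw [Set.univ_eq_empty_iff.2 hne, measure_empty] at h1
      exact zero_ne_one h1
    have := (norm_nonneg _).trans (hΨ y)
    simpa using this
  set F : ℕ → Sq b → ℂ := fun n => μ[W n | past b ((n : ℤ) - L)] with hF
  have hFs : ∀ n : ℕ, StronglyMeasurable[past b ((n : ℤ) - L)] (F n) := fun n =>
    stronglyMeasurable_condExp
  have hFm : ∀ n, Measurable (F n) := fun n => ((hFs n).mono (past_le _)).measurable
  have hWi : ∀ n, Integrable (W n) μ := fun n =>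
    Integrable.of_bound (hW n).aestronglyMeasurable 1 (Eventually.of_forall (hW1 n))
  have hFi : ∀ n, Integrable (F n) μ := fun n => integrable_condExp
  have hF1 : ∀ᵐ y ∂μ, ∀ n, ‖F n y‖ ≤ 1 := by
    rw [ae_all_iff]
    intro n
    exact ae_bdd_norm_condExp_of_ae_bdd_norm (ae_of_all _ fun y => hW1 n y)
  set D : ℕ → Sq b → ℂ := fun n y => a n * (W n y - F n y) with hD
  have hDm : ∀ n, Measurable (D n) := fun n => ((hW n).sub (hFm n)).const_mul _
  have hbd : ∀ᵐ y ∂μ, ∀ n, ‖D n y‖ ≤ 2 := by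
    filter_upwards [hF1] with y hy n
    rw [hD]
    simp only
    rw [norm_mul]
    calc ‖a n‖ * ‖W n y - F n y‖ ≤ 1 * (1 + 1) := by
          apply mul_le_mul (ha n) _ (norm_nonneg _) zero_le_one
          exact (norm_sub_le _ _).trans (add_le_add (hW1 n y) (hy n))
      _ = 2 := by norm_num
  -- orthogonality
  have hort : ∀ (n : ℕ) (A : Sq b → ℂ), StronglyMeasurable[past b ((n : ℤ) - L)] A →
      (∀ᵐ y ∂μ, ‖A y‖ ≤ 2) → ∫ y, A y * (starRingEnd ℂ) (D n y) ∂μ = 0 := by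
    intro n A hA hA2
    have hcA : StronglyMeasurable[past b ((n : ℤ) - L)] (fun y => (starRingEnd ℂ) (A y)) :=
      Complex.continuous_conj.comp_stronglyMeasurable hA
    have hcA2 : ∀ᵐ y ∂μ, ‖(starRingEnd ℂ) (A y)‖ ≤ 2 := by
      filter_upwards [hA2] with y hy
      rwa [RCLike.norm_conj]
    have hcAm := (hcA.mono (past_le _)).aestronglyMeasurable (μ := μ)
    have i1 : Integrable (fun y => (starRingEnd ℂ) (A y) * W n y) μ :=
      (hWi n).bdd_mul hcAm hcA2
    have i2 : Integrable (fun y => (starRingEnd ℂ) (A y) * F n y) μ :=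
      (hFi n).bdd_mul hcAm hcA2
    have e3 := condExp_bilin_of_stronglyMeasurable_left (μ := μ) (ContinuousLinearMap.mul ℝ ℂ) hcA
      (g := W n) (by simpa using i1) (hWi n)
    simp only [ContinuousLinearMap.mul_apply'] at e3
    have e4 : ∫ y, (starRingEnd ℂ) (A y) * F n y ∂μ = ∫ y, (starRingEnd ℂ) (A y) * W n y ∂μ := by
      rw [← integral_congr_ae e3, integral_condExp (past_le _)]
    have e5 : ∫ y, A y * (starRingEnd ℂ) (D n y) ∂μ =
        (starRingEnd ℂ) (a n * (∫ y, (starRingEnd ℂ) (A y) * W n y ∂μ -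
          ∫ y, (starRingEnd ℂ) (A y) * F n y ∂μ)) := by
      rw [← integral_sub i1 i2, ← integral_const_mul, ← integral_conj]
      congr 1
      funext y
      simp only [hD, map_mul, map_sub, Complex.conj_conj]
      ring
    rw [e5, e4, sub_self, mul_zero, map_zero]
  -- the rate
  set ρ₁ := max ρ (1 / 2) with hρ₁
  have hρ₁0 : 0 < ρ₁ := lt_of_lt_of_le (by norm_num) (le_max_right _ _)
  have hρ₁1 : ρ₁ < 1 := max_lt hρ (by norm_num)
  have hcor1 : ∀ m k : ℕ, ‖∫ y, D m y * (starRingEnd ℂ) (D (m + (L + k)) y) ∂μ‖ ≤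
      2 * C * ρ₁ ^ k := by
    intro m k
    obtain ⟨Ψ, hΨm, hΨ1, hΨ⟩ := happ m k
    set A : Sq b → ℂ := fun y => a m * (Ψ y - F m y) with hA
    have hidx : (((m + (L + k) : ℕ) : ℤ) - L) = ((m + k : ℕ) : ℤ) := by push_cast; ring
    have hAm : StronglyMeasurable[past b (((m + (L + k) : ℕ) : ℤ) - L)] A := by
      rw [hidx]
      have h1 : StronglyMeasurable[past b ((m + k : ℕ) : ℤ)] (F m) :=
        (hFs m).mono (past_mono (by push_cast; linarith))
      exact (hΨm.sub h1).const_mul _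
    have hA2 : ∀ᵐ y ∂μ, ‖A y‖ ≤ 2 := by
      filter_upwards [hF1] with y hy
      rw [hA]
      simp only
      rw [norm_mul]
      calc ‖a m‖ * ‖Ψ y - F m y‖ ≤ 1 * (1 + 1) := by
            apply mul_le_mul (ha m) _ (norm_nonneg _) zero_le_one
            exact (norm_sub_le _ _).trans (add_le_add (hΨ1 y) (hy m))
        _ = 2 := by norm_num
    have hort' := hort (m + (L + k)) A hAm hA2
    have hmA : Measurable A := (hAm.mono (past_le _)).measurable
    have hmHc : Measurable fun y => (starRingEnd ℂ) (D (m + (L + k)) y) :=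
      Complex.continuous_conj.measurable.comp (hDm _)
    have i1 : Integrable (fun y => D m y * (starRingEnd ℂ) (D (m + (L + k)) y)) μ :=
      Integrable.of_bound ((hDm m).mul hmHc).aestronglyMeasurable (2 * 2) (by
        filter_upwards [hbd] with y hy
        rw [norm_mul, RCLike.norm_conj]
        exact mul_le_mul (hy m) (hy _) (norm_nonneg _) (by norm_num))
    have i2 : Integrable (fun y => A y * (starRingEnd ℂ) (D (m + (L + k)) y)) μ :=
      Integrable.of_bound (hmA.mul hmHc).aestronglyMeasurable (2 * 2) (by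
        filter_upwards [hbd, hA2] with y hy hy2
        rw [norm_mul, RCLike.norm_conj]
        exact mul_le_mul hy2 (hy _) (norm_nonneg _) (by norm_num))
    have e1 : ∫ y, D m y * (starRingEnd ℂ) (D (m + (L + k)) y) ∂μ =
        ∫ y, (D m y * (starRingEnd ℂ) (D (m + (L + k)) y) -
          A y * (starRingEnd ℂ) (D (m + (L + k)) y)) ∂μ := by
      rw [integral_sub i1 i2, hort', sub_zero]
    rw [e1]
    have h9 : ∀ᵐ y ∂μ, ‖D m y * (starRingEnd ℂ) (D (m + (L + k)) y) -
          A y * (starRingEnd ℂ) (D (m + (L + k)) y)‖ ≤ 2 * C * ρ₁ ^ k := by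
      filter_upwards [hbd] with y hy
      have e2 : D m y * (starRingEnd ℂ) (D (m + (L + k)) y) -
          A y * (starRingEnd ℂ) (D (m + (L + k)) y) =
          a m * (W m y - Ψ y) * (starRingEnd ℂ) (D (m + (L + k)) y) := by
        rw [hA, hD]
        simp only
        ring
      rw [e2, norm_mul, norm_mul, RCLike.norm_conj]
      have h7 : ‖W m y - Ψ y‖ ≤ C * ρ₁ ^ k := by
        refine (hΨ y).trans ?_
        apply mul_le_mul_of_nonneg_left _ hC
        exact pow_le_pow_left₀ hρ0 (le_max_left _ _) k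
      have h8 : 0 ≤ C * ρ₁ ^ k := (norm_nonneg _).trans h7
      calc ‖a m‖ * ‖W m y - Ψ y‖ * ‖D (m + (L + k)) y‖
          ≤ 1 * (C * ρ₁ ^ k) * 2 := by
            apply mul_le_mul (mul_le_mul (ha m) h7 (norm_nonneg _) zero_le_one) (hy _)
              (norm_nonneg _) (by linarith)
        _ = _ := by ring
    have h10 := norm_integral_le_of_norm_le_const h9
    simpa using h10
  have hcor2 : ∀ m k : ℕ, ‖∫ y, D m y * (starRingEnd ℂ) (D (m + k) y) ∂μ‖ ≤ 4 := by
    intro m k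
    have h9 : ∀ᵐ y ∂μ, ‖D m y * (starRingEnd ℂ) (D (m + k) y)‖ ≤ 4 := by
      filter_upwards [hbd] with y hy
      rw [norm_mul, RCLike.norm_conj]
      calc ‖D m y‖ * ‖D (m + k) y‖ ≤ 2 * 2 :=
            mul_le_mul (hy m) (hy _) (norm_nonneg _) (by norm_num)
        _ = 4 := by norm_num
    have h10 := norm_integral_le_of_norm_le_const h9
    simpa using h10
  refine lln_abs D hDm hbd ((C + 2) / ρ₁ ^ L) ρ₁ (by positivity) hρ₁0.le hρ₁1 ?_
  intro m k
  rcases le_or_gt L k with hk | hk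
  · obtain ⟨j, rfl⟩ := Nat.exists_eq_add_of_le hk
    refine (hcor1 m j).trans ?_
    rw [pow_add]
    have h1 : 2 * ((C + 2) / ρ₁ ^ L) * (ρ₁ ^ L * ρ₁ ^ j) = 2 * (C + 2) * ρ₁ ^ j := by
      field_simp
    rw [h1]
    gcongr
    linarith
  · refine (hcor2 m k).trans ?_
    have h1 : ρ₁ ^ L ≤ ρ₁ ^ k := pow_le_pow_of_le_one hρ₁0.le hρ₁1.le hk.le
    have h2 : 2 * ((C + 2) / ρ₁ ^ L) * ρ₁ ^ k = 2 * (C + 2) * (ρ₁ ^ k / ρ₁ ^ L) := by ring
    rw [h2]
    have h3 : 1 ≤ ρ₁ ^ k / ρ₁ ^ L := by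
      rw [one_le_div (by positivity)]; exact h1
    nlinarith

end Pool.Agent.Helper35.NE
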